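import Pool.Agent.Y811.PC.Stm4

/-! Change of variables for `w ↦ w ^ d + c` (job 6602, task COV of helper811's project PC). -/

set_option autoImplicit false
namespace Pool.Agent.Y448.PC
open MeasureTheory Set Complex Filter

lemma polar (f : ℂ → ENNReal) (hf : Measurable f) : ∫⁻ z, f z =
    ∫⁻ r in Ioi (0:ℝ), ENNReal.ofReal r *
      ∫⁻ t in Ioo (-Real.pi) Real.pi, f ((r : ℂ) * cexp ((t : ℂ) * I)) := by
  rw [← Complex.lintegral_comp_polarCoord_symm f, polarCoord_target, Measure.volume_eq_prod,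
    ← Measure.prod_restrict]
  have hm : Measurable (fun p : ℝ × ℝ => f ((p.1 : ℂ) * cexp ((p.2 : ℂ) * I))) := by
    apply hf.comp
    fun_prop
  have he : ∀ p : ℝ × ℝ, ENNReal.ofReal p.1 • f (Complex.polarCoord.symm p) =
      ENNReal.ofReal p.1 * f ((p.1 : ℂ) * cexp ((p.2 : ℂ) * I)) := by
    intro p
    rw [Complex.polarCoord_symm_apply, smul_eq_mul, Complex.exp_mul_I]
    simp
  simp_rw [he]
  rw [lintegral_prod]
  · apply lintegral_congr
    intro r
    simp only
    rw [lintegral_const_mul]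
    exact hm.comp (measurable_const.prodMk measurable_id)
  · apply Measurable.aemeasurable
    apply Measurable.mul _ hm
    fun_prop

lemma ang (d : ℕ) (hd : 1 ≤ d) (g : ℂ → ENNReal) (hg : Measurable g) :
    ∫⁻ t in Ioo (-Real.pi) Real.pi, g (cexp ((d : ℂ) * ((t : ℂ) * I))) =
      ∫⁻ t in Ioo (-Real.pi) Real.pi, g (cexp ((t : ℂ) * I)) := by
  have : Fact (0 < 2 * Real.pi) := ⟨by positivity⟩
  have e1 : ∀ F : ℝ → ENNReal, ∫⁻ t in Ioo (-Real.pi) Real.pi, F t = ∫⁻ t in Ioc (-Real.pi) (-Real.pi + 2 * Real.pi), F t := by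
    intro F
    have : -Real.pi + 2 * Real.pi = Real.pi := by ring
    rw [this]
    exact setLIntegral_congr Ioo_ae_eq_Ioc
  set F : AddCircle (2 * Real.pi) → ENNReal := fun θ => g ((Real.Angle.toCircle θ : Circle) : ℂ) with hF
  have hFm : Measurable F := by
    apply hg.comp
    apply Continuous.measurable
    refine continuous_subtype_val.comp ?_
    refine continuous_coinduced_dom.2 ?_
    have : ((Real.Angle.toCircle) ∘ (fun t : ℝ => (t : Real.Angle))) = fun t : ℝ => Circle.exp t := by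
      funext t
      exact Real.Angle.toCircle_coe t
    exact (show Continuous (fun t : ℝ => Circle.exp t) from Circle.exp.continuous)
  have e2 := AddCircle.lintegral_preimage (2 * Real.pi) (-Real.pi) F
  have e3 := AddCircle.lintegral_preimage (2 * Real.pi) (-Real.pi) (fun θ => F ((d : ℤ) • θ))
  have hmp := MeasureTheory.Measure.measurePreserving_zsmul (volume : Measure (AddCircle (2 * Real.pi))) (n := (d : ℤ))
    (by exact_mod_cast (by omega : d ≠ 0))
  have e4 := hmp.lintegral_comp hFm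
  rw [e1, e1]
  have e5 : ∀ t : ℝ, F (t : AddCircle (2 * Real.pi)) = g (cexp ((t : ℂ) * I)) := by
    intro t
    have : (Real.Angle.toCircle (t : Real.Angle) : Circle) = Circle.exp t := Real.Angle.toCircle_coe t
    simp only [hF]
    exact congrArg g (by rw [← Circle.coe_exp]; exact congrArg _ this)
  have e6 : ∀ t : ℝ, F ((d : ℤ) • (t : AddCircle (2 * Real.pi))) = g (cexp ((d : ℂ) * ((t : ℂ) * I))) := by
    intro t
    have : (d : ℤ) • (t : AddCircle (2 * Real.pi)) = (((d : ℝ) * t : ℝ) : AddCircle (2 * Real.pi)) := by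
      rw [← AddCircle.coe_zsmul]
      simp
    rw [this, e5]
    congr 2
    push_cast
    ring
  have e7 : ∫⁻ (t : ℝ) in Ioc (-Real.pi) (-Real.pi + 2 * Real.pi), g (cexp ((d : ℂ) * ((t : ℂ) * I))) =
    ∫⁻ (t : ℝ) in Ioc (-Real.pi) (-Real.pi + 2 * Real.pi), F ((d : ℤ) • (t : AddCircle (2 * Real.pi))) :=
    lintegral_congr fun t => (e6 t).symm
  have e8 : ∫⁻ (t : ℝ) in Ioc (-Real.pi) (-Real.pi + 2 * Real.pi), g (cexp (((t : ℂ) * I))) =
    ∫⁻ (t : ℝ) in Ioc (-Real.pi) (-Real.pi + 2 * Real.pi), F ((t : AddCircle (2 * Real.pi))) :=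
    lintegral_congr fun t => (e5 t).symm
  rw [e7, e8, e2, e3, e4]

lemma cov0 (d : ℕ) (hd : 1 ≤ d) (h : ℂ → ENNReal) (hh : Measurable h) :
    ∫⁻ w : ℂ, h (w ^ d) * ENNReal.ofReal (‖(d : ℂ) * w ^ (d - 1)‖ ^ 2) = d * ∫⁻ z : ℂ, h z := by
  rw [polar h hh, polar]
  swap
  · fun_prop
  rw [← lintegral_const_mul]
  swap
  · apply Measurable.mul (by fun_prop)
    apply Measurable.lintegral_prod_right' (f := fun p : ℝ × ℝ => h ((p.1 : ℂ) * cexp ((p.2 : ℂ) * I)))
    apply hh.comp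
    fun_prop
  set Φ : ℝ → ENNReal := fun r => ∫⁻ (t : ℝ) in Ioo (-Real.pi) Real.pi, h ((r : ℂ) * cexp ((t : ℂ) * I)) with hΦ
  have himg : (fun r : ℝ => r ^ d) '' Ioi (0 : ℝ) = Ioi 0 := by
    ext y
    constructor
    · rintro ⟨x, hx, rfl⟩
      exact pow_pos (show (0 : ℝ) < x from hx) d
    · intro hy
      refine ⟨y ^ ((1 : ℝ) / d), Real.rpow_pos_of_pos hy _, ?_⟩
      simp only
      rw [← Real.rpow_natCast, ← Real.rpow_mul (le_of_lt hy)]
      have : (1 : ℝ) / d * d = 1 := by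
        have : (d : ℝ) ≠ 0 := by exact_mod_cast (by omega : d ≠ 0)
        field_simp
      rw [this, Real.rpow_one]
  have hcv := lintegral_image_eq_lintegral_abs_deriv_mul (s := Ioi (0 : ℝ)) (f := fun r : ℝ => r ^ d)
    (f' := fun r => d * r ^ (d - 1)) measurableSet_Ioi
    (fun x _ => (hasDerivAt_pow d x).hasDerivWithinAt)
    (fun x hx y hy hxy => (pow_left_inj₀ (le_of_lt hx) (le_of_lt hy) (by omega)).1 hxy)
    (fun r => (d : ENNReal) * (ENNReal.ofReal r * Φ r))
  rw [himg] at hcv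
  rw [hcv]
  apply setLIntegral_congr_fun measurableSet_Ioi
  intro r hr
  simp only
  have hr0 : (0 : ℝ) < r := hr
  have e1 : ∀ t : ℝ, h (((r : ℂ) * cexp ((t : ℂ) * I)) ^ d) *
      ENNReal.ofReal (‖(d : ℂ) * ((r : ℂ) * cexp ((t : ℂ) * I)) ^ (d - 1)‖ ^ 2) =
      ENNReal.ofReal ((d * r ^ (d - 1)) ^ 2) * h (((r ^ d : ℝ) : ℂ) * cexp ((d : ℂ) * ((t : ℂ) * I))) := by
    intro t
    rw [mul_comm]
    congr 2
    · congr 1
      rw [norm_mul, norm_pow, norm_mul, Complex.norm_exp_ofReal_mul_I, Complex.norm_real,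
        Real.norm_of_nonneg hr0.le, Complex.norm_natCast, mul_one]
    · rw [mul_pow, ← Complex.exp_nat_mul]
      push_cast
      rfl
  simp_rw [e1]
  rw [lintegral_const_mul]
  swap
  · apply hh.comp
    fun_prop
  have e2 := ang d hd (fun u => h (((r ^ d : ℝ) : ℂ) * u)) (hh.comp (by fun_prop))
  rw [e2]
  have e3 : |(d : ℝ) * r ^ (d - 1)| = (d : ℝ) * r ^ (d - 1) := abs_of_nonneg (by positivity)
  have e4 : ENNReal.ofReal r * ENNReal.ofReal ((d * r ^ (d - 1)) ^ 2) =
      ENNReal.ofReal ((d : ℝ) * r ^ (d - 1)) * ((d : ENNReal) * ENNReal.ofReal (r ^ d)) := by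
    rw [← ENNReal.ofReal_natCast, ← ENNReal.ofReal_mul (by positivity), ← ENNReal.ofReal_mul (by positivity),
      ← ENNReal.ofReal_mul (by positivity)]
    congr 1
    obtain ⟨k, rfl⟩ : ∃ k, d = k + 1 := ⟨d - 1, by omega⟩
    simp only [Nat.add_sub_cancel]
    ring
  rw [e3, ← mul_assoc, e4]
  simp only [hΦ, mul_assoc]

/-- change of variables for `w ↦ w ^ d + c` -/
theorem t_COV : Pool.Agent.Y811.PC.S_COV := by
  intro d c hd h hh
  have := cov0 d hd (fun z => h (z + c)) (hh.comp (by fun_prop))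
  rw [this, lintegral_add_right_eq_self h c]

end Pool.Agent.Y448.PC
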